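import Mathlib
import Pool.Agent.W_MP_955314_co.Defs
import Pool.Agent.W_MP_955314_co.TTrick

namespace Pool.Agent.H19.TwoImages

open Pool.Agent.W_MP_955314_co

/-- Let a soluble group `G` of symmetries of the finite set `X = A ∪ B` be transitive on `A` and on
`B`. Suppose there are `c ∈ {1, 2}` and a finite family of isometries `γ i` mapping `X` onto `X`
such that for every `x ∈ X` exactly `c` of the points `γ i x` lie in `A` (in other words the images
`(γ i)⁻¹ A` cover every point of `X` exactly `c` times). Then `X` is contained in a soluble set. -/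
theorem result {n : ℕ} (X A B : Set (EuclideanSpace ℝ (Fin n))) (hX : X.Finite)
    (hXAB : X = A ∪ B)
    (G : Subgroup (EuclideanSpace ℝ (Fin n) ≃ᵢ EuclideanSpace ℝ (Fin n)))
    (hG : Group.IsSolvable G)
    (hA : ∀ g ∈ G, ∀ a ∈ A, g a ∈ A) (hB : ∀ g ∈ G, ∀ b ∈ B, g b ∈ B)
    (htA : ∀ a ∈ A, ∀ a' ∈ A, ∃ g ∈ G, g a = a') (htB : ∀ b ∈ B, ∀ b' ∈ B, ∃ g ∈ G, g b = b')
    {I : Type} [Fintype I]
    (γ : I → (EuclideanSpace ℝ (Fin n) ≃ᵢ EuclideanSpace ℝ (Fin n)))
    (hγ : ∀ i, ⇑(γ i) '' X = X)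
    (c : ℕ) (hc : c = 1 ∨ c = 2) (hcount : ∀ x ∈ X, {i | γ i x ∈ A}.ncard = c) :
    InSolubleSet X :=
  tTrick X A B hX (hXAB ▸ Set.subset_union_left) (hXAB ▸ Set.subset_union_right) hXAB.subset
    G hG hA hB htA htB (fun i => ⇑(γ i)) (fun i => (γ i).isometry)
    (fun i x hx => (hγ i).subset (Set.mem_image_of_mem _ hx)) c hc hcount

end Pool.Agent.H19.TwoImages
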